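import Pool.Agent.N375.AV.D
import Pool.Agent.Results.MP_7bfa24_nt.StarshapedHeights

/-!
# The generalized abc inequality for all tuples with maximum near values of additive functions and their compositions

Let `F = f_1 ∘ ⋯ ∘ f_k` be a composition of functions dominated by the largest prime factor: for example additive functions
`f` with `f (q^j) ≤ C q^j` at the prime powers, with different values at different large primes (the sum of the prime factors),
the largest prime factor itself, and Kempner's function. Let `G` have steps bounded below by a positive constant and growth at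
most `v ^ d`, for example `G v = v`. Let `n ≥ 3`, `b = binom (n, ⌊n / 2⌋)`, `η > 0`, `κ ≥ 0` and `d (1 - 1 / b) / η + κ < 1`. For
all `m ≤ N` but `K N exp (- c (log N)^(1 / (k + 1)))`, ALL admissible `n`-tuples `x` (the sum of the entries is `0`, no proper
subsum vanishes, greatest common divisor `1`) with `|max |x_i| - G (F m)| ≤ F(m) ^ κ` satisfy `max |x_i| < R (x_1 ⋯ x_n) ^ η`. The
exponent `2 n - 5` of the conjecture is admissible for all `d < (2 n - 5) b / (b - 1)`. The values of `F` are taken with very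
large multiplicities and `F(m)` is in general much smaller than `m`; and so this does not follow from the number of exceptional
tuples.

Proof. The preimage of a set with at most `K X exp (- c (log X)^β)` elements up to `X` under a function dominated by the largest
prime factor has at most `K' X exp (- c' (log X)^(β / (1 + β)))` elements. The exceptional set has a power saving by the
starting theorems of this problem.
-/

set_option autoImplicit false

namespace Pool.Agent.Results.MP_7bfa24_nt.AdditiveValues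

open Finset
open Pool.Agent.N733.TG (Expanding expanding_pow)
open Pool.Agent.N375.AV (PD comp good pd_additive pd_largest pd_kempner)

/-- `x` is admissible: the entries sum to `0`, their greatest common divisor is `1`, and no subsum
over a nonempty proper set of indices vanishes. -/
def Admissible {n : ℕ} (x : Fin n → ℤ) : Prop :=
  ∑ i, x i = 0 ∧ Finset.univ.gcd x = 1 ∧
    ∀ I : Finset (Fin n), I.Nonempty → I ≠ Finset.univ → ∑ i ∈ I, x i ≠ 0

/-- the radical of an integer: the product of the distinct primes dividing it -/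
def radical (m : ℤ) : ℕ := ∏ p ∈ m.natAbs.primeFactors, p

/-- `max |x_i|` -/
def ht {n : ℕ} (x : Fin n → ℤ) : ℕ := Finset.univ.sup fun i => (x i).natAbs

lemma count (n : ℕ) (hn : 3 ≤ n) (η : ℝ) (hη : 0 < η) (ε : ℝ) (hε : 0 < ε) : ∃ C : ℝ, ∀ X : ℝ, 1 ≤ X →
    {x : Fin n → ℤ | (Admissible x ∧ ¬ (ht x : ℝ) < (radical (∏ j, x j) : ℝ) ^ η) ∧ ((ht x : ℕ) : ℝ) ≤ X}.Finite ∧
      ({x : Fin n → ℤ | (Admissible x ∧ ¬ (ht x : ℝ) < (radical (∏ j, x j) : ℝ) ^ η) ∧ ((ht x : ℕ) : ℝ) ≤ X}.ncard : ℝ) ≤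
        C * X ^ (1 / η * (1 - 1 / (n.choose (n / 2) : ℝ)) + ε) := by
  have hη' : 0 < 1 / η := by positivity
  obtain ⟨K, hK⟩ := StarshapedHeights.count n hn (1 / η) hη' ε hε
  refine ⟨K, fun X hX => ?_⟩
  obtain ⟨h2, h3⟩ := hK X hX
  have he : {x : Fin n → ℤ | (Admissible x ∧ ¬ (ht x : ℝ) < (radical (∏ j, x j) : ℝ) ^ η) ∧ ((ht x : ℕ) : ℝ) ≤ X} ⊆
      {x | x ∈ StarshapedHeights.Exc n (1 / η) ∧ (StarshapedHeights.ht x : ℝ) ≤ X} := by
    rintro x ⟨⟨g1, g2⟩, g3⟩
    refine ⟨⟨g1, ?_⟩, g3⟩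
    rw [not_lt] at g2
    have h0 : (0 : ℝ) ≤ (radical (∏ j, x j) : ℝ) := Nat.cast_nonneg _
    change (radical (∏ j, x j) : ℝ) ≤ (ht x : ℝ) ^ (1 / η)
    calc (radical (∏ j, x j) : ℝ) = ((radical (∏ j, x j) : ℝ) ^ η) ^ (1 / η) := by
          rw [← Real.rpow_mul h0, mul_one_div_cancel hη.ne', Real.rpow_one]
      _ ≤ _ := Real.rpow_le_rpow (by positivity) g2 hη'.le
  refine ⟨h2.subset he, le_trans ?_ h3⟩
  exact_mod_cast Set.ncard_le_ncard he h2

/-- **The generalized abc inequality near the values of compositions of additive functions.** Let `F = f_1 ∘ ⋯ ∘ f_k`, `f_i`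
dominated by the largest prime factor. Let `G` have steps `≥ a > 0` and growth at most `v ^ d`, `n ≥ 3`,
`b = binom (n, ⌊n / 2⌋)`, `η > 0`, `κ ≥ 0` and `d (1 - 1 / b) / η + κ < 1`. For all `m ≤ N` but
`K N exp (- c (log N)^(1 / (k + 1)))`, ALL admissible `n`-tuples `x` with `|max |x_i| - G (F m)| ≤ F(m) ^ κ` satisfy
`max |x_i| < R (x_1 ⋯ x_n) ^ η`. The additive functions with `f (q^j) ≤ C q^j` which are injective at the large primes, the
largest prime factor and Kempner's function are examples of such functions `f_i`, and `α v ^ d` with `α > 0`, `d ≥ 1` is an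
example of `G`. -/
theorem result :
    (∀ fs : List (ℕ → ℕ), (∀ f ∈ fs, PD f) → ∀ (G : ℕ → ℝ) (d : ℝ), Expanding G d → ∀ (n : ℕ) (η κ : ℝ), 3 ≤ n → 0 < η →
      0 ≤ κ → d * (1 - 1 / (n.choose (n / 2) : ℝ)) / η + κ < 1 → ∃ c K : ℝ, 0 < c ∧ ∀ N : ℕ, 1 ≤ N →
      ({m : ℕ | 1 ≤ m ∧ m ≤ N ∧ ¬ ∀ x : Fin n → ℤ, Admissible x → |(ht x : ℝ) - G (comp fs m)| ≤ (comp fs m : ℝ) ^ κ →
        (ht x : ℝ) < (radical (∏ j, x j) : ℝ) ^ η}.ncard : ℝ) ≤
        K * N * Real.exp (-(c * Real.log N ^ ((1 : ℝ) / (fs.length + 1))))) ∧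
    (∀ f : ℕ → ℕ, (∀ a b : ℕ, Nat.Coprime a b → f (a * b) = f a + f b) →
      (∃ C : ℕ, ∀ q j : ℕ, q.Prime → 1 ≤ j → f (q ^ j) ≤ C * q ^ j) →
      (∃ P : ℕ, ∀ p q : ℕ, p.Prime → q.Prime → P ≤ p → P ≤ q → f p = f q → p = q) → PD f) ∧
    (PD (fun n => n.primeFactors.sup id) ∧ PD (fun n => sInf {k : ℕ | n ∣ k.factorial})) ∧
    ∀ α d : ℝ, 0 < α → 1 ≤ d → Expanding (fun v => α * (v : ℝ) ^ d) d := by
  refine ⟨fun fs hfs G d hG n η κ hn hη hκ h1 => ?_, fun f h2 h3 h4 => pd_additive h2 h3 h4, ⟨pd_largest, pd_kempner⟩,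
    fun α d hα hd => expanding_pow hα hd⟩
  have hη' : 0 < 1 / η := by positivity
  exact good (fun x : Fin n → ℤ => Admissible x) (fun x : Fin n → ℤ => (ht x : ℝ) < (radical (∏ j, x j) : ℝ) ^ η)
    (fun x => ((ht x : ℕ) : ℝ)) fs hfs hG (s := 1 / η * (1 - 1 / (n.choose (n / 2) : ℝ)))
    (mul_nonneg hη'.le (StarshapedHeights.gap n)) hκ
    (by
      calc d * (1 / η * (1 - 1 / (n.choose (n / 2) : ℝ))) + κ = d * (1 - 1 / (n.choose (n / 2) : ℝ)) / η + κ := by ring
        _ < 1 := h1) (fun ε hε => count n hn η hη ε hε)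

end Pool.Agent.Results.MP_7bfa24_nt.AdditiveValues
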