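import Mathlib
import Pool.Agent.N906.RN.All

/-!
# The generalized abc conjecture for `n` summands: the exceptions ordered by their radical, up to the second order term

Let `n ≥ 3` and `1/n < M < M' < 3/(3n-1)`. The number of the admissible `n`-tuples with `R = rad(x_1 ⋯ x_n) ≤ X` and
`R ^ M < max |x_i| ≤ R ^ M'` is

  `X ^ (1 - M) * exp ((C + o(1)) (log X / log log X) ^ ((n-2)/(n-1)))`,

`C = ((n-1)/(n-2)) ^ ((2n-3)/(n-1)) * binomial(n, 2) ^ (1/(n-1)) * (n M - 1) ^ ((n-2)/(n-1))`.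
-/

set_option autoImplicit false

namespace Pool.Agent.Results.MP_7bfa24_nt.RadicalOrder

open Finset Filter Topology

/-- the tuples of the problem: coprime integers with sum zero and no vanishing proper subsum -/
def Admissible {n : ℕ} (x : Fin n → ℤ) : Prop :=
  univ.gcd x = 1 ∧ ∑ i, x i = 0 ∧
    ∀ I : Finset (Fin n), I.Nonempty → I ≠ univ → ∑ i ∈ I, x i ≠ 0

/-- the product of the primes that divide `a` -/
def rad (a : ℤ) : ℕ := ∏ p ∈ a.natAbs.primeFactors, p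

/-- `max |x_i|` -/
def height {n : ℕ} (x : Fin n → ℤ) : ℕ := univ.sup fun i => (x i).natAbs

/-- the admissible tuples with `rad (x_1 ⋯ x_n) ≤ X` that violate `max |x_i| ≤ rad (x_1 ⋯ x_n) ^ M` and satisfy
`max |x_i| ≤ rad (x_1 ⋯ x_n) ^ M'` -/
def Exceptions (n : ℕ) (M M' X : ℝ) : Set (Fin n → ℤ) :=
  {x | Admissible x ∧ (rad (∏ i, x i) : ℝ) ≤ X ∧ (rad (∏ i, x i) : ℝ) ^ M < height x ∧
    (height x : ℝ) ≤ (rad (∏ i, x i) : ℝ) ^ M'}

theorem rad_eq {n : ℕ} (x : Fin n → ℤ) :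
    rad (∏ i, x i) = Pool.Agent.N906.NT.rr (Pool.Agent.N906.NT.ab x) := by
  unfold rad Pool.Agent.N906.NT.rr Pool.Agent.N906.NT.pr Pool.Agent.N906.NT.ab
  rw [← Int.natAbsHom_apply, map_prod]
  rfl

theorem ne_zero {n : ℕ} (hn : 3 ≤ n) {x : Fin n → ℤ} (hx : Admissible x) (i : Fin n) :
    x i ≠ 0 := by
  have h := hx.2.2 {i} (singleton_nonempty i) (by
    intro h
    have h1 := congrArg Finset.card h
    rw [card_singleton, card_univ, Fintype.card_fin] at h1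
    omega)
  simpa using h

theorem adm1 {n : ℕ} (hn : 3 ≤ n) (x : Fin n → ℤ) (hx : Admissible x) :
    ∑ i, x i = 0 ∧ (∀ i, x i ≠ 0) ∧
      Pool.Agent.N906.NT.Tp (Pool.Agent.N906.NT.Dl n (n - 2)) (Pool.Agent.N906.NT.ab x) := by
  refine ⟨hx.2.1, ne_zero hn hx, fun i => Nat.one_le_iff_ne_zero.2
    (Int.natAbs_ne_zero.2 (ne_zero hn hx i)), fun p hp => ?_⟩
  unfold Pool.Agent.N906.NT.Dl
  rw [mem_filter]
  refine ⟨mem_univ _, ?_⟩
  by_contra hcon
  push Not at hcon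
  obtain ⟨S, hS⟩ : ∃ S : Finset (Fin n), S = univ.filter fun i => p ∣ Pool.Agent.N906.NT.ab x i :=
    ⟨_, rfl⟩
  rw [← hS] at hcon
  have hdvd : ∀ i, i ∈ S → (p : ℤ) ∣ x i := by
    intro i hi
    rw [hS, mem_filter] at hi
    exact Int.natCast_dvd.2 hi.2
  -- all coordinates are divisible by `p`
  have hall : ∀ j, (p : ℤ) ∣ x j := by
    intro j
    by_cases hj : j ∈ S
    · exact hdvd j hj
    have h1 : ∀ i, i ≠ j → i ∈ S := by
      intro i hij
      by_contra hi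
      have h2 : S ⊆ (univ.erase j).erase i := by
        intro k hk
        rw [mem_erase, mem_erase]
        exact ⟨fun h => hi (h ▸ hk), fun h => hj (h ▸ hk), mem_univ k⟩
      have h3 := card_le_card h2
      rw [card_erase_of_mem (by rw [mem_erase]; exact ⟨hij, mem_univ i⟩),
        card_erase_of_mem (mem_univ j), card_univ, Fintype.card_fin] at h3
      omega
    have h4 : x j = -∑ i ∈ univ.erase j, x i := by
      have := add_sum_erase univ x (mem_univ j)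
      rw [hx.2.1] at this
      linarith
    rw [h4]
    apply Dvd.dvd.neg_right
    exact dvd_sum fun i hi => hdvd i (h1 i (ne_of_mem_erase hi))
  have h5 : (p : ℤ) ∣ univ.gcd x := dvd_gcd fun i _ => hall i
  rw [hx.1] at h5
  have h6 := Int.isUnit_iff_natAbs_eq.1 (isUnit_of_dvd_one h5)
  rw [Int.natAbs_natCast] at h6
  exact hp.one_lt.ne' h6

theorem adm2 {n : ℕ} (hn : 3 ≤ n) (x : Fin n → ℤ) (h1 : ∑ i, x i = 0) (h2 : ∀ i, x i ≠ 0)
    (h3 : Pool.Agent.N906.NT.NV x)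
    (h4 : Pool.Agent.N906.NT.Tp (Pool.Agent.N906.NT.Dl n (n - 2)) (Pool.Agent.N906.NT.ab x)) :
    Admissible x := by
  refine ⟨?_, h1, h3⟩
  by_contra hg
  have hg0 : univ.gcd x ≠ 0 := by
    intro h
    rw [Finset.gcd_eq_zero_iff] at h
    exact h2 ⟨0, by omega⟩ (h _ (mem_univ _))
  have hg1 : (univ.gcd x).natAbs ≠ 1 := by
    intro h
    apply hg
    have h5 : 0 ≤ univ.gcd x := Int.nonneg_of_normalize_eq_self Finset.normalize_gcd
    omega
  obtain ⟨p, hp, hpd⟩ := Nat.exists_prime_and_dvd hg1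
  have h5 := h4.2 p hp
  unfold Pool.Agent.N906.NT.Dl at h5
  rw [mem_filter] at h5
  have h6 : (univ.filter fun i => p ∣ Pool.Agent.N906.NT.ab x i) = univ := by
    rw [filter_eq_self]
    intro i _
    have h7 : (univ.gcd x).natAbs ∣ (x i).natAbs := Int.natAbs_dvd_natAbs.2 (gcd_dvd (mem_univ i))
    exact hpd.trans h7
  rw [h6, card_univ, Fintype.card_fin] at h5
  omega

theorem lt_height {n : ℕ} (hn : 0 < n) (x : Fin n → ℤ) (a : ℝ) :
    a < (height x : ℝ) ↔ ∃ i, a < |(x i : ℝ)| := by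
  have : Nonempty (Fin n) := ⟨⟨0, hn⟩⟩
  constructor
  · intro h
    obtain ⟨i, -, hi⟩ := exists_mem_eq_sup univ (univ_nonempty (α := Fin n)) (fun i => (x i).natAbs)
    refine ⟨i, ?_⟩
    have h4 : height x = (x i).natAbs := hi
    rwa [h4, Nat.cast_natAbs, Int.cast_abs] at h
  · rintro ⟨i, hi⟩
    have h1 : (x i).natAbs ≤ height x := le_sup (f := fun i => (x i).natAbs) (mem_univ i)
    have h2 : ((x i).natAbs : ℝ) ≤ (height x : ℝ) := by exact_mod_cast h1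
    rw [Nat.cast_natAbs, Int.cast_abs] at h2
    exact hi.trans_le h2

theorem height_le {n : ℕ} (hn : 0 < n) (x : Fin n → ℤ) (a : ℝ) :
    (height x : ℝ) ≤ a ↔ ∀ i, |(x i : ℝ)| ≤ a := by
  rw [← not_lt, lt_height hn]
  push Not
  rfl

theorem exc_eq {n : ℕ} (hn : 3 ≤ n) (M M' X : ℝ) : Exceptions n M M' X =
    Pool.Agent.N906.RN.Rn n (n - 2) M M' X := by
  unfold Exceptions Pool.Agent.N906.RN.Rn Pool.Agent.N906.RN.Ra
  ext x
  rw [Set.mem_ofPred_eq, Set.mem_ofPred_eq, Set.mem_ofPred_eq, rad_eq, lt_height (by omega),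
    height_le (by omega)]
  constructor
  · rintro ⟨h1, h2, h3, h4⟩
    obtain ⟨g1, g2, g3⟩ := adm1 hn x h1
    exact ⟨⟨g1, g2, g3, h2, h3, h4⟩, h1.2.2⟩
  · rintro ⟨⟨g1, g2, g3, h2, h3, h4⟩, h5⟩
    exact ⟨adm2 hn x g1 g2 h5 g3, h2, h3, h4⟩

/-- the constant -/
noncomputable def const (n : ℕ) : ℝ :=
  (((n : ℝ) - 1) / (n - 2)) ^ ((2 * (n : ℝ) - 3) / (n - 1)) *
    (n.choose 2 : ℝ) ^ (1 / ((n : ℝ) - 1))

/-- **Theorem.** Let `n ≥ 3` and `1/n < M < M' < 3/(3n-1)`. The number `N(X)` of the admissible `n`-tuples with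
`R = rad (x_1 ⋯ x_n) ≤ X` and `R ^ M < max |x_i| ≤ R ^ M'` is finite, and
`(log N(X) - (1 - M) log X) / (log X / log log X) ^ ((n-2)/(n-1))` tends to
`((n-1)/(n-2)) ^ ((2n-3)/(n-1)) * binomial(n, 2) ^ (1/(n-1)) * (n M - 1) ^ ((n-2)/(n-1))`. -/
theorem result :
    ∀ n : ℕ, 3 ≤ n → ∀ M M' : ℝ, 1 / (n : ℝ) < M → M < M' → M' < 3 / (3 * n - 1) →
    (∀ X : ℝ, (Exceptions n M M' X).Finite) ∧
    Tendsto (fun X : ℝ => (Real.log ((Exceptions n M M' X).ncard : ℝ) - (1 - M) * Real.log X) /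
      (Real.log X / Real.log (Real.log X)) ^ (((n : ℝ) - 2) / (n - 1))) atTop
      (𝓝 (const n * ((n : ℝ) * M - 1) ^ (((n : ℝ) - 2) / (n - 1)))) := by
  intro n hn M M' h1 h2 h3
  simp only [exc_eq hn]
  obtain ⟨g1, -, h⟩ := Pool.Agent.N906.RN.finrn_all n (n - 2) M M' (by omega) (by omega) h1 h2 h3
  refine ⟨fun X => (g1 X).subset fun x hx => hx.1, ?_⟩
  have e1 : ((n - 2 : ℕ) : ℝ) = (n : ℝ) - 2 := by
    rw [Nat.cast_sub (by omega)]; norm_num
  have e2 : ((n - 2 : ℕ) : ℝ) / (((n - 2 : ℕ) : ℝ) + 1) = ((n : ℝ) - 2) / (n - 1) := by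
    rw [e1]; congr 1; ring
  have e3 : Pool.Agent.N906.NT.cst (n - 2) (n.choose (n - 2)) = const n := by
    unfold Pool.Agent.N906.NT.cst const
    rw [Nat.choose_symm (show 2 ≤ n by omega), e1]
    have e4 : (n : ℝ) - 2 + 1 = n - 1 := by ring
    have e5 : 2 * ((n : ℝ) - 2) + 1 = 2 * n - 3 := by ring
    rw [e4, e5]
  rw [e2, e3] at h
  exact h

end Pool.Agent.Results.MP_7bfa24_nt.RadicalOrder
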