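import Pool.Agent.N671.DA.Win
import Pool.Agent.Results.MP_7bfa24_nt.StarshapedHeights

/-!
# The generalized abc inequality for all tuples with maximum near functions of the denominators of good approximations

Let `α_1, …, α_m` be real numbers. We consider the natural numbers `q` with `‖q α_j - β_j‖ ≤ c q^(-τ)` for all `j`, `‖x‖` the
distance to the nearest integer; for `β = 0`, `c = 1`, `τ = 1 / m` these include the denominators of all best simultaneous
approximations (the denominators of the convergents for `m = 1`). They form a very sparse sequence, with gaps growing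
exponentially for almost all `α` if `τ = 1 / m`. We show: let `G` be a function with steps bounded below by a positive constant
and growth at most `v^d`, for example `a v^d`, `n ≥ 3`, `b = binom (n, ⌊n / 2⌋)`, `η > 0` and `0 ≤ κ ≤ 1`. For all `α` in `ℝ^m`
outside a set of Hausdorff dimension at most `(m + d (1 - 1 / b) / η + κ) / (1 + τ)`, and all `c`, for all but finitely many
such `q` ALL admissible `n`-tuples `x` (the sum of the entries is `0`, no proper subsum vanishes, greatest common divisor `1`)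
with `|max |x_i| - G q| ≤ q ^ κ` satisfy `max |x_i| < R (x_1 ⋯ x_n) ^ η`. For `τ = 1 / m` the bound is less than `m` if
`d (1 - 1 / b) / η + κ < 1`; and so the statement holds for almost all `α`. The exponent `η = 2 n - 5` of the conjecture is
admissible for all `d < (2 n - 5) b / (b - 1)`.

Proof. The `q` such that the maximum of some exceptional tuple is near `G q` form a set with `O(X^(d (1 - 1 / b) / η + κ + ε))`
elements up to `X`, by the starting theorems of this problem; and the `α` with `‖q α_j - β_j‖ ≤ c q^(-τ)` for all `j` and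
infinitely many `q` of such a set are covered by few small cubes.
-/

set_option autoImplicit false

namespace Pool.Agent.Results.MP_7bfa24_nt.SimultaneousApproximations

open Finset
open Pool.Agent.N671.DA (Solves Expanding expanding_pow approx_good)

/-- `x` is admissible: the entries sum to `0`, their greatest common divisor is `1`, and no subsum
over a nonempty proper set of indices vanishes. -/
def Admissible {n : ℕ} (x : Fin n → ℤ) : Prop :=
  ∑ i, x i = 0 ∧ Finset.univ.gcd x = 1 ∧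
    ∀ I : Finset (Fin n), I.Nonempty → I ≠ Finset.univ → ∑ i ∈ I, x i ≠ 0

/-- the radical of an integer: the product of the distinct primes dividing it -/
def radical (m : ℤ) : ℕ := ∏ p ∈ m.natAbs.primeFactors, p

/-- `max |x_i|` -/
def ht {n : ℕ} (x : Fin n → ℤ) : ℕ := Finset.univ.sup fun i => (x i).natAbs

lemma count (n : ℕ) (hn : 3 ≤ n) (η : ℝ) (hη : 0 < η) (ε : ℝ) (hε : 0 < ε) : ∃ C : ℝ, ∀ X : ℝ, 1 ≤ X →
    {x : Fin n → ℤ | (Admissible x ∧ ¬ (ht x : ℝ) < (radical (∏ j, x j) : ℝ) ^ η) ∧ ((ht x : ℕ) : ℝ) ≤ X}.Finite ∧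
      ({x : Fin n → ℤ | (Admissible x ∧ ¬ (ht x : ℝ) < (radical (∏ j, x j) : ℝ) ^ η) ∧ ((ht x : ℕ) : ℝ) ≤ X}.ncard : ℝ) ≤
        C * X ^ (1 / η * (1 - 1 / (n.choose (n / 2) : ℝ)) + ε) := by
  have hη' : 0 < 1 / η := by positivity
  obtain ⟨K, hK⟩ := StarshapedHeights.count n hn (1 / η) hη' ε hε
  refine ⟨K, fun X hX => ?_⟩
  obtain ⟨h2, h3⟩ := hK X hX
  have he : {x : Fin n → ℤ | (Admissible x ∧ ¬ (ht x : ℝ) < (radical (∏ j, x j) : ℝ) ^ η) ∧ ((ht x : ℕ) : ℝ) ≤ X} ⊆
      {x | x ∈ StarshapedHeights.Exc n (1 / η) ∧ (StarshapedHeights.ht x : ℝ) ≤ X} := by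
    rintro x ⟨⟨g1, g2⟩, g3⟩
    refine ⟨⟨g1, ?_⟩, g3⟩
    rw [not_lt] at g2
    have h0 : (0 : ℝ) ≤ (radical (∏ j, x j) : ℝ) := Nat.cast_nonneg _
    change (radical (∏ j, x j) : ℝ) ≤ (ht x : ℝ) ^ (1 / η)
    calc (radical (∏ j, x j) : ℝ) = ((radical (∏ j, x j) : ℝ) ^ η) ^ (1 / η) := by
          rw [← Real.rpow_mul h0, mul_one_div_cancel hη.ne', Real.rpow_one]
      _ ≤ _ := Real.rpow_le_rpow (by positivity) g2 hη'.le
  refine ⟨h2.subset he, le_trans ?_ h3⟩
  exact_mod_cast Set.ncard_le_ncard he h2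

/-- **The generalized abc inequality near the denominators of good approximations.** Let `G` have steps `≥ a > 0` and growth
at most `v ^ d`, `n ≥ 3`, `b = binom (n, ⌊n / 2⌋)`, `η > 0`, `0 ≤ κ ≤ 1`, `β` in `ℝ^m` and `τ > 0`. For all `α` in `ℝ^m` outside a
set of Hausdorff dimension at most `(m + d (1 - 1 / b) / η + κ) / (1 + τ)` and all `c`, for all large `q` with
`‖q α_j - β_j‖ ≤ c q^(-τ)` for all `j`, ALL admissible `n`-tuples `x` with `|max |x_i| - G q| ≤ q ^ κ` satisfy
`max |x_i| < R (x_1 ⋯ x_n) ^ η`. The functions `a v^d` with `a > 0`, `d ≥ 1` are examples of `G`. -/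
theorem result :
    (∀ (G : ℕ → ℝ) (d : ℝ), Expanding G d → ∀ (n : ℕ) (η κ : ℝ), 3 ≤ n → 0 < η → 0 ≤ κ → κ ≤ 1 →
      ∀ (m : ℕ) (β : Fin m → ℝ) (τ : ℝ), 0 < τ →
      ∃ E : Set (Fin m → ℝ),
        dimH E ≤ ENNReal.ofReal ((m + (d * (1 - 1 / (n.choose (n / 2) : ℝ)) / η + κ)) / (1 + τ)) ∧
        ∀ α, α ∉ E → ∀ c : ℝ, ∃ Q : ℕ, ∀ q : ℕ, Q ≤ q → Solves α β q (c * (q : ℝ) ^ (-τ)) →
          ∀ x : Fin n → ℤ, Admissible x → |(ht x : ℝ) - G q| ≤ (q : ℝ) ^ κ →
            (ht x : ℝ) < (radical (∏ j, x j) : ℝ) ^ η) ∧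
    ∀ α d : ℝ, 0 < α → 1 ≤ d → Expanding (fun v => α * (v : ℝ) ^ d) d := by
  refine ⟨fun G d hG n η κ hn hη hκ hκ1 m β τ hτ => ?_, fun α d hα hd => expanding_pow hα hd⟩
  have hη' : 0 < 1 / η := by positivity
  obtain ⟨E, hE, hE2⟩ := approx_good (fun x : Fin n → ℤ => Admissible x)
    (fun x : Fin n → ℤ => (ht x : ℝ) < (radical (∏ j, x j) : ℝ) ^ η)
    (fun x => ((ht x : ℕ) : ℝ)) hG (s := 1 / η * (1 - 1 / (n.choose (n / 2) : ℝ))) (κ := κ)
    (mul_nonneg hη'.le (StarshapedHeights.gap n)) hκ hκ1 (fun ε hε => count n hn η hη ε hε) β hτ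
  refine ⟨E, ?_, hE2⟩
  have e : d * (1 / η * (1 - 1 / (n.choose (n / 2) : ℝ))) + κ = d * (1 - 1 / (n.choose (n / 2) : ℝ)) / η + κ := by ring
  rw [← e]
  exact hE

end Pool.Agent.Results.MP_7bfa24_nt.SimultaneousApproximations
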